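import Pool.Agent.H.MP_dec67b_co.A

set_option autoImplicit false

namespace Pool.Agent.Results.MP_facb47_co.Superlinear

open Pool.Agent.H.MP_dec67b_co

theorem result (d : ℕ) (hd : 6 ≤ d) :
    ∃ S : Finset (EuclideanSpace ℝ (Fin d)),
      (∀ x ∈ S, ∀ y ∈ S, x ≠ y → 1 ≤ dist x y) ∧
      ∀ q : ℕ, (SimpleGraph.fromRel (fun x y : S =>
          dist (x : EuclideanSpace ℝ (Fin d)) (y : EuclideanSpace ℝ (Fin d)) = 1)).Colorable q →
        d ^ 3 ≤ 24 ^ 3 * q ^ 2 := by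
  classical
  have hex : ∃ k : ℕ, 6 * 4 ^ k ≤ d ∧ d < 24 * 4 ^ k := by
    refine ⟨Nat.log 4 (d / 6), ?_, ?_⟩
    · have := Nat.pow_log_le_self 4 (show d / 6 ≠ 0 by omega)
      omega
    · have := Nat.lt_pow_succ_log_self (show 1 < 4 by norm_num) (d / 6)
      rw [pow_succ] at this
      omega
  obtain ⟨k, hk1, hk2⟩ := hex
  obtain ⟨g, h1, h2⟩ := gram k
  have e4 : 2 ^ (2 * k + 1) = 2 * 4 ^ k := by rw [pow_succ, pow_mul]; ring
  let g' : V (2 * k + 1) × V (2 * k + 1) →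
      ((V (2 * k + 1) ⊕ V (2 * k + 1) ⊕ V (2 * k + 1)) ⊕ Fin (d - 6 * 4 ^ k)) → ℝ :=
    fun p => Sum.elim (g p) (fun _ => 0)
  have hg' : ∀ p q, ∑ j, g' p j * g' q j = ∑ j, g p j * g q j := by
    intro p q
    rw [Fintype.sum_sum_type]
    simp [g']
  have hP := pts g' (2 ^ k) (by positivity) (fun p => by rw [hg', h1])
    (fun p q hpq => by rw [hg']; exact h2 p q hpq)
  have hc : Fintype.card ((V (2 * k + 1) ⊕ V (2 * k + 1) ⊕ V (2 * k + 1)) ⊕ Fin (d - 6 * 4 ^ k)) = d := by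
    simp only [Fintype.card_sum, cardV, Fintype.card_fin, e4]
    omega
  rw [hc] at hP
  obtain ⟨S, hS, hsep, hT⟩ := hP
  refine ⟨S, hsep, fun q hq => ?_⟩
  obtain ⟨C⟩ := hq
  have hcl : ∀ i : Fin q, (((Finset.univ : Finset S).filter fun x => C x = i).card : ℝ)
      ≤ 2 * 2 ^ k + 2 := by
    intro i
    have := hT (((Finset.univ : Finset S).filter fun x => C x = i).map (Function.Embedding.subtype _))
      (by
        intro x hx
        obtain ⟨y, -, rfl⟩ := Finset.mem_map.mp hx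
        exact y.2)
      (by
        intro x hx y hy hxy
        obtain ⟨a, ha, rfl⟩ := Finset.mem_map.mp hx
        obtain ⟨b, hb, rfl⟩ := Finset.mem_map.mp hy
        have hab : a ≠ b := fun h => hxy (by rw [h])
        refine lt_of_le_of_ne (hsep _ a.2 _ b.2 hxy) fun h => ?_
        refine C.valid (v := a) (w := b) ?_ ?_
        · rw [SimpleGraph.fromRel_adj]
          exact ⟨hab, Or.inl h.symm⟩
        · rw [(Finset.mem_filter.mp ha).2, (Finset.mem_filter.mp hb).2])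
    rwa [Finset.card_map] at this
  have hsum : (Finset.univ : Finset S).card =
      ∑ i : Fin q, ((Finset.univ : Finset S).filter fun x => C x = i).card :=
    Finset.card_eq_sum_card_fiberwise (fun x _ => Finset.mem_univ (C x))
  have hle : (S.card : ℝ) ≤ q * (2 * 2 ^ k + 2) := by
    rw [Finset.card_univ, Fintype.card_coe] at hsum
    rw [hsum]
    push_cast
    calc _ ≤ ∑ _i : Fin q, ((2 : ℝ) * 2 ^ k + 2) := Finset.sum_le_sum fun i _ => hcl i
      _ = _ := by simp; ring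
  rw [hS] at hle
  simp only [Fintype.card_prod, cardV] at hle
  push_cast at hle
  obtain ⟨h, hh⟩ : ∃ h : ℝ, h = 2 ^ k := ⟨_, rfl⟩
  have e : (2 : ℝ) ^ (2 * k + 1) = 2 * h ^ 2 := by rw [hh]; ring
  have e' : (4 : ℝ) ^ k = h ^ 2 := by
    rw [hh, ← pow_mul, mul_comm, pow_mul]; norm_num
  have h1le : 1 ≤ h := by rw [hh]; exact one_le_pow₀ (by norm_num)
  rw [e, ← hh] at hle
  have hq0 : (0 : ℝ) ≤ q := Nat.cast_nonneg q
  have h3 : h ^ 3 ≤ q := by
    have : 4 * h * h ^ 3 ≤ 4 * h * q := by nlinarith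
    exact le_of_mul_le_mul_left this (by positivity)
  have hd2 : (d : ℝ) ≤ 24 * h ^ 2 := by
    rw [← e']; exact_mod_cast hk2.le
  have h4 : (d : ℝ) ^ 3 ≤ (24 * h ^ 2) ^ 3 := pow_le_pow_left₀ (Nat.cast_nonneg d) hd2 3
  have h5 : (h ^ 3) ^ 2 ≤ (q : ℝ) ^ 2 := pow_le_pow_left₀ (by positivity) h3 2
  have h6 : (d : ℝ) ^ 3 ≤ 24 ^ 3 * (q : ℝ) ^ 2 := by nlinarith
  exact_mod_cast h6

end Pool.Agent.Results.MP_facb47_co.Superlinear
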